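import Mathlib

namespace Pool.Agent.Results.MP_d8e1db_al.Infinite

open TensorProduct

section Defs

variable {k E : Type} [Field k] [Ring E] [HopfAlgebra k E]

/-- The image of `B ⊗ B` in `E ⊗ E`. -/
def sq (B : Set E) : Submodule k (E ⊗[k] E) :=
  Submodule.span k {t | ∃ u ∈ B, ∃ v ∈ B, t = u ⊗ₜ[k] v}

/-- `B` is closed under the comultiplication and the antipode. -/
def IsHopfSub (B : Subalgebra k E) : Prop :=
  ∀ b ∈ B, Coalgebra.comul b ∈ sq (k := k) (B : Set E) ∧ HopfAlgebra.antipode k b ∈ B

/-- The multiplication map `M ⊗ N → E` is bijective. -/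
def MulBij (M N : Submodule k E) : Prop := Function.Bijective (Submodule.mulMap M N)

/-- `H` is a Hopf subalgebra which is an `A`-complement of `E`. -/
def IsComplement (A H : Subalgebra k E) : Prop :=
  IsHopfSub H ∧ MulBij (Subalgebra.toSubmodule A) (Subalgebra.toSubmodule H)

/-- `B` and `C` are not isomorphic as `k`-algebras. -/
def NonIso (B C : Subalgebra k E) : Prop := IsEmpty (B ≃ₐ[k] C)

noncomputable def mulMap (A H : Subalgebra k E) : A ⊗[k] H →ₗ[k] E :=
  LinearMap.mul' k E ∘ₗ TensorProduct.map A.val.toLinearMap H.val.toLinearMap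

lemma mulBij {A H : Subalgebra k E} (h : Function.Bijective (mulMap A H)) :
    MulBij (Subalgebra.toSubmodule A) (Subalgebra.toSubmodule H) := by
  have : Submodule.mulMap (Subalgebra.toSubmodule A) (Subalgebra.toSubmodule H) = mulMap A H :=
    TensorProduct.ext' fun _ _ => rfl
  unfold MulBij
  rw [this]
  exact h

end Defs

abbrev F := FractionRing (MvPolynomial ℕ (ZMod 2))

def K : Type := F

noncomputable instance : Field K := inferInstanceAs (Field F)
instance : CharP K 2 := inferInstanceAs (CharP F 2)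

lemma two {M : Type*} [AddCommGroup M] [Module K M] (v : M) : v + v = 0 := by
  rw [← two_smul K v, show (2 : K) = 0 from CharTwo.two_eq_zero, zero_smul]

inductive rel : FreeAlgebra K Bool → FreeAlgebra K Bool → Prop
  | sq (b : Bool) : rel (.ι K b * .ι K b) 0
  | zz : rel ((.ι K true * .ι K false + .ι K false * .ι K true) *
      (.ι K true * .ι K false + .ι K false * .ι K true))
      (.ι K true * .ι K false + .ι K false * .ι K true)

def E : Type := RingQuot rel

noncomputable instance : Ring E := inferInstanceAs (Ring (RingQuot rel))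
noncomputable instance : Algebra K E := inferInstanceAs (Algebra K (RingQuot rel))

noncomputable def mk : FreeAlgebra K Bool →ₐ[K] E := RingQuot.mkAlgHom K rel

noncomputable def g (b : Bool) : E := mk (.ι K b)

noncomputable abbrev x : E := g true
noncomputable abbrev y : E := g false
noncomputable def z : E := x * y + y * x

lemma gg (b : Bool) : g b * g b = 0 := by
  have : mk _ = mk _ := RingQuot.mkAlgHom_rel K (rel.sq b)
  simpa [g] using this

lemma zz : z * z = z := by
  have : mk _ = mk _ := RingQuot.mkAlgHom_rel K rel.zz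
  simpa [z, g] using this

noncomputable def lift {B : Type*} [Ring B] [Algebra K B] (f : Bool → B) (h1 : ∀ b, f b * f b = 0)
    (h2 : (f true * f false + f false * f true) * (f true * f false + f false * f true) =
      f true * f false + f false * f true) : E →ₐ[K] B :=
  RingQuot.liftAlgHom K ⟨FreeAlgebra.lift K f, by rintro _ _ (b | _) <;> simp [h1, h2]⟩

@[simp] lemma lift_g {B : Type*} [Ring B] [Algebra K B] (f : Bool → B) (h1 h2) (b : Bool) :
    lift f h1 h2 (g b) = f b :=
  (RingQuot.liftAlgHom_mkAlgHom_apply K _ _ _).trans (by simp)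

lemma ind {P : E → Prop} (h0 : ∀ r, P (algebraMap K E r)) (h1 : ∀ b, P (g b))
    (h2 : ∀ a b, P a → P b → P (a * b)) (h3 : ∀ a b, P a → P b → P (a + b)) (e : E) : P e := by
  obtain ⟨a, rfl⟩ : ∃ a, mk a = e := RingQuot.mkAlgHom_surjective K rel e
  induction a with
  | grade0 r => rw [AlgHom.commutes]; exact h0 r
  | grade1 b => exact h1 b
  | mul a b ha hb => rw [map_mul]; exact h2 _ _ ha hb
  | add a b ha hb => rw [map_add]; exact h3 _ _ ha hb

lemma ext' {B : Type*} [Semiring B] [Algebra K B] {f f' : E →ₐ[K] B}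
    (h : ∀ b, f (g b) = f' (g b)) : f = f' :=
  AlgHom.ext (ind (by simp) h (by simp +contextual) (by simp +contextual))

noncomputable def pr (a : E) : E ⊗[K] E := a ⊗ₜ 1 + 1 ⊗ₜ a

lemma pr_sq (a : E) : pr a * pr a = pr (a * a) := by
  simp only [pr, mul_add, add_mul, Algebra.TensorProduct.tmul_mul_tmul, mul_one, one_mul]
  rw [add_assoc, ← add_assoc (a ⊗ₜ a), two, zero_add]

lemma pr_z : pr x * pr y + pr y * pr x = pr z := by
  simp only [pr, z, mul_add, add_mul, Algebra.TensorProduct.tmul_mul_tmul, mul_one, one_mul,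
    tmul_add, add_tmul]
  linear_combination (norm := abel) two (x ⊗ₜ[K] y) + two (y ⊗ₜ[K] x)

noncomputable def cm : E →ₐ[K] E ⊗[K] E :=
  lift (fun b => pr (g b)) (fun b => by rw [pr_sq, gg]; simp [pr]) (by rw [pr_z, pr_sq, zz])

noncomputable def cu : E →ₐ[K] K := lift (fun _ => 0) (by simp) (by simp)

noncomputable def an : E →ₐ[K] Eᵐᵒᵖ := lift (fun b => .op (g b))
  (fun b => by rw [← MulOpposite.op_mul, gg]; rfl)
  (by simp only [← MulOpposite.op_mul, ← MulOpposite.op_add]; rw [add_comm]; exact congrArg _ zz)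

@[simp] lemma cm_g (b) : cm (g b) = g b ⊗ₜ 1 + 1 ⊗ₜ g b := lift_g _ _ _ _
@[simp] lemma cu_g (b) : cu (g b) = 0 := lift_g _ _ _ _

noncomputable def S : E →ₗ[K] E := (MulOpposite.opLinearEquiv K).symm.toLinearMap ∘ₗ an.toLinearMap

@[simp] lemma S_g (b) : S (g b) = g b := by simp [S, an]
@[simp] lemma S_mul (a b) : S (a * b) = S b * S a := by simp [S]
@[simp] lemma S_one : S 1 = 1 := by simp [S]

noncomputable instance : Bialgebra K E := .ofAlgHom cm cu
  (ext' fun b => by simp [add_tmul, tmul_add, Algebra.TensorProduct.one_def, add_assoc])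
  (ext' fun b => by simp) (ext' fun b => by simp)

noncomputable instance : HopfAlgebra K E where
  antipode := S
  mul_antipode_rTensor_comul := by
    have h : ∀ e f, LinearMap.mul' K E (S.rTensor E (cm (e * f))) =
        cu e • LinearMap.mul' K E (S.rTensor E (cm f)) := by
      refine ind (fun r f => by simp [← Algebra.smul_def]) (fun b f => ?_)
        (fun a b ha hb f => by rw [mul_assoc, ha, hb, map_mul, mul_smul])
        (fun a b ha hb f => by simp only [add_mul, map_add, ha, hb, add_smul])
      rw [map_mul, cu_g, zero_smul, cm_g]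
      induction cm f with
      | zero => simp
      | tmul a c => simpa [add_mul, mul_assoc] using two _
      | add a c ha hc => simp only [mul_add, map_add, ha, hc, add_zero]
    ext e
    have := h e 1
    rw [mul_one] at this
    refine this.trans ?_
    change _ = algebraMap K E (cu e)
    simp [Algebra.TensorProduct.one_def, Algebra.algebraMap_eq_smul_one]
  mul_antipode_lTensor_comul := by
    have h : ∀ e f, LinearMap.mul' K E (S.lTensor E (cm (f * e))) =
        cu e • LinearMap.mul' K E (S.lTensor E (cm f)) := by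
      refine ind (fun r f => by simp [← Algebra.commutes, ← Algebra.smul_def]) (fun b f => ?_)
        (fun a b ha hb f => by rw [← mul_assoc, hb, ha, map_mul, mul_comm, mul_smul])
        (fun a b ha hb f => by simp only [mul_add, map_add, ha, hb, add_smul])
      rw [map_mul, cu_g, zero_smul, cm_g]
      induction cm f with
      | zero => simp
      | tmul a c => simpa [mul_add, mul_assoc] using two _
      | add a c ha hc => simp only [add_mul, map_add, ha, hc, add_zero]
    ext e
    have := h e 1
    rw [one_mul] at this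
    refine this.trans ?_
    change _ = algebraMap K E (cu e)
    simp [Algebra.TensorProduct.one_def, Algebra.algebraMap_eq_smul_one]

lemma hopfSub (T : Set E) (h : ∀ t ∈ T, cm t = pr t ∧ S t = t) :
    IsHopfSub (Algebra.adjoin K T) := by
  set B := Algebra.adjoin K T
  refine fun b hb => ⟨?_, ?_⟩
  · suffices cm b ∈ (Algebra.TensorProduct.map B.val B.val).range by
      obtain ⟨t, ht⟩ := this
      change cm b ∈ _
      rw [← ht]
      clear ht
      induction t with
      | zero => simp
      | tmul u v => exact Submodule.subset_span ⟨u, u.2, v, v.2, rfl⟩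
      | add u v hu hv => rw [map_add]; exact add_mem hu hv
    induction hb using Algebra.adjoin_induction with
    | mem t ht => exact ⟨⟨t, Algebra.subset_adjoin ht⟩ ⊗ₜ 1 + 1 ⊗ₜ ⟨t, Algebra.subset_adjoin ht⟩,
        by simp [(h t ht).1, pr]⟩
    | algebraMap r => rw [AlgHom.commutes]; exact algebraMap_mem _ r
    | add a b _ _ ha hb => rw [map_add]; exact add_mem ha hb
    | mul a b _ _ ha hb => rw [map_mul]; exact mul_mem ha hb
  · change S b ∈ B
    induction hb using Algebra.adjoin_induction with
    | mem t ht => rw [(h t ht).2]; exact Algebra.subset_adjoin ht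
    | algebraMap r => rw [Algebra.algebraMap_eq_smul_one, map_smul, S_one]; exact B.smul_mem B.one_mem r
    | add a b _ _ ha hb => rw [map_add]; exact add_mem ha hb
    | mul a b _ _ ha hb => rw [S_mul]; exact mul_mem hb ha

noncomputable def w (l : K) : E := y + l • x

lemma ww (l : K) : w l * w l = l • z := by
  simp [w, z, mul_add, add_mul, gg, add_comm]

lemma zw (l : K) : z * w l = w l * z := by
  have h : ∀ b a, g b * (g b * a) = 0 := fun b a => by rw [← mul_assoc, gg, zero_mul]
  simp [w, z, mul_add, add_mul, gg, mul_assoc, h]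

lemma wx (l : K) : w l * x = x * w l + z := by
  simp only [w, z, mul_add, add_mul, smul_mul_assoc, mul_smul_comm, gg, smul_zero, add_zero]
  rw [← add_assoc, two, zero_add]

noncomputable def A : Subalgebra K E := Algebra.adjoin K {x}
noncomputable def H (l : K) : Subalgebra K E := Algebra.adjoin K {w l, z}

noncomputable def el (l a b c d : K) : E := a • 1 + b • w l + c • z + d • (w l * z)

lemma el_mul (l a b c d a' b' c' d' : K) : el l a b c d * el l a' b' c' d' =
    el l (a * a') (a * b' + b * a') (a * c' + c * a' + c * c' + l * (b + d) * (b' + d'))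
      (a * d' + d * a' + b * c' + c * b' + c * d' + d * c') := by
  have h1 : ∀ u, w l * (w l * u) = l • (z * u) := fun u => by rw [← mul_assoc, ww, smul_mul_assoc]
  have h2 : ∀ u, z * (w l * u) = w l * (z * u) := fun u => by rw [← mul_assoc, zw, mul_assoc]
  simp only [el, mul_add, add_mul, smul_mul_assoc, mul_smul_comm, mul_assoc, one_mul, mul_one, ww,
    zw, zz, h1, h2]
  module

lemma memH {l : K} {e : E} (he : e ∈ H l) : ∃ a b c d, e = el l a b c d := by
  induction he using Algebra.adjoin_induction with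
  | mem t ht =>
    rcases ht with rfl | rfl
    exacts [⟨0, 1, 0, 0, by simp [el]⟩, ⟨0, 0, 1, 0, by simp [el]⟩]
  | algebraMap r => exact ⟨r, 0, 0, 0, by simp [el, Algebra.algebraMap_eq_smul_one]⟩
  | add a b _ _ ha hb =>
    obtain ⟨a, b, c, d, rfl⟩ := ha
    obtain ⟨a', b', c', d', rfl⟩ := hb
    exact ⟨a + a', b + b', c + c', d + d', by simp only [el]; module⟩
  | mul a b _ _ ha hb =>
    obtain ⟨a, b, c, d, rfl⟩ := ha
    obtain ⟨a', b', c', d', rfl⟩ := hb
    exact ⟨_, _, _, _, el_mul ..⟩

lemma memA {e : E} (he : e ∈ A) : ∃ a b : K, e = a • 1 + b • x := by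
  induction he using Algebra.adjoin_induction with
  | mem t ht => exact ⟨0, 1, by simpa using ht⟩
  | algebraMap r => exact ⟨r, 0, by simp [Algebra.algebraMap_eq_smul_one]⟩
  | add a b _ _ ha hb =>
    obtain ⟨a, b, rfl⟩ := ha
    obtain ⟨a', b', rfl⟩ := hb
    exact ⟨a + a', b + b', by module⟩
  | mul a b _ _ ha hb =>
    obtain ⟨a, b, rfl⟩ := ha
    obtain ⟨a', b', rfl⟩ := hb
    refine ⟨a * a', a * b' + b * a', ?_⟩
    simp only [mul_add, add_mul, smul_mul_assoc, mul_smul_comm, one_mul, mul_one, gg]
    module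

open Matrix in
noncomputable def r1 : E →ₐ[K] Matrix (Fin 4) (Fin 4) K :=
  lift (fun b => if b then single 1 0 1 + single 3 2 1 else single 2 0 1 + single 3 1 1)
    (by rintro (_ | _) <;> simp [mul_add, add_mul]) (by simp [mul_add, add_mul, two])

open Matrix in
noncomputable def r2 : E →ₐ[K] Matrix (Fin 2) (Fin 2) K :=
  lift (fun b => if b then single 0 1 1 else single 1 0 1)
    (by rintro (_ | _) <;> simp) (by simp [mul_add, add_mul])

lemma indep {l a b c d a' b' c' d' : K} (h : el l a b c d + x * el l a' b' c' d' = 0) :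
    (a = 0 ∧ b = 0 ∧ c = 0 ∧ d = 0) ∧ a' = 0 ∧ b' = 0 ∧ c' = 0 ∧ d' = 0 := by
  have h1 := congrArg r1 h
  have h2 := congrArg r2 h
  have z1 : r1 z = 0 := by simp [z, r1, mul_add, add_mul, two]
  simp only [el, map_add, map_mul, map_smul, z1, map_one, map_zero, mul_zero, smul_zero,
    add_zero] at h1
  simp [el, w, z, r1, r2, mul_add, add_mul] at h1 h2
  have p0 := congrFun (congrFun h1 0) 0
  have p1 := congrFun (congrFun h1 1) 0
  have p2 := congrFun (congrFun h1 2) 0
  have p3 := congrFun (congrFun h1 3) 0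
  have q0 := congrFun (congrFun h2 0) 0
  have q1 := congrFun (congrFun h2 0) 1
  have q2 := congrFun (congrFun h2 1) 0
  have q3 := congrFun (congrFun h2 1) 1
  simp [Matrix.single_apply, Matrix.one_apply] at p0 p1 p2 p3 q0 q1 q2 q3
  grind

lemma el_inj {l a b c d a' b' c' d' : K} (h : el l a b c d = el l a' b' c' d') :
    a = a' ∧ b = b' ∧ c = c' ∧ d = d' := by
  have := (indep (l := l) (a := a - a') (b := b - b') (c := c - c') (d := d - d') (a' := 0)
    (b' := 0) (c' := 0) (d' := 0) (by
      rw [← sub_eq_zero.2 h]; simp only [el, zero_smul, add_zero, mul_zero]; module)).1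
  simpa [sub_eq_zero] using this

lemma dec (l : K) (e : E) : ∃ u ∈ H l, ∃ v ∈ H l, e = u + x * v := by
  have hw : w l ∈ H l := Algebra.subset_adjoin (by simp)
  have hz : z ∈ H l := Algebra.subset_adjoin (by simp)
  have h : ∀ e : E, ∀ u ∈ H l, ∀ v ∈ H l, ∃ u' ∈ H l, ∃ v' ∈ H l, e * (u + x * v) = u' + x * v' := by
    refine ind (fun r u hu v hv => ⟨_, (H l).smul_mem hu r, _, (H l).smul_mem hv r, by
      simp [← Algebra.smul_def]⟩) ?_ (fun a b ha hb u hu v hv => ?_) fun a b ha hb u hu v hv => ?_
    · rintro (_ | _) u hu v hv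
      · refine ⟨w l * u + z * v, add_mem (mul_mem hw hu) (mul_mem hz hv), w l * v - l • u,
          sub_mem (mul_mem hw hv) ((H l).smul_mem hu l), ?_⟩
        have : g false = w l - l • x := by simp [w]
        rw [this]
        simp only [sub_mul, mul_add, mul_sub, ← mul_assoc, wx, add_mul, smul_mul_assoc, gg,
          mul_smul_comm, zero_mul, smul_zero]
        abel
      · exact ⟨0, zero_mem _, u, hu, by simp [mul_add, ← mul_assoc, gg]⟩
    · obtain ⟨u', hu', v', hv', e⟩ := hb u hu v hv
      rw [mul_assoc, e]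
      exact ha u' hu' v' hv'
    · obtain ⟨u1, hu1, v1, hv1, e1⟩ := ha u hu v hv
      obtain ⟨u2, hu2, v2, hv2, e2⟩ := hb u hu v hv
      exact ⟨_, add_mem hu1 hu2, _, add_mem hv1 hv2, by rw [add_mul, e1, e2, mul_add]; abel⟩
  simpa using h e 1 (one_mem _) 0 (zero_mem _)

noncomputable def xA : A := ⟨x, Algebra.subset_adjoin rfl⟩

lemma bij (l : K) : Function.Bijective (mulMap A (H l)) := by
  refine ⟨(injective_iff_map_eq_zero _).2 fun t ht => ?_, fun e => ?_⟩
  · obtain ⟨u, v, rfl⟩ : ∃ u v : H l, t = 1 ⊗ₜ u + xA ⊗ₜ v := by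
      clear ht
      induction t with
      | zero => exact ⟨0, 0, by simp⟩
      | tmul a h =>
        obtain ⟨p, q, e⟩ := memA a.2
        refine ⟨p • h, q • h, ?_⟩
        rw [show a = p • 1 + q • xA from Subtype.ext e]
        simp [add_tmul, smul_tmul]
      | add a b ha hb =>
        obtain ⟨u, v, rfl⟩ := ha
        obtain ⟨u', v', rfl⟩ := hb
        exact ⟨u + u', v + v', by simp only [tmul_add]; abel⟩
    obtain ⟨a, b, c, d, hu⟩ := memH u.2
    obtain ⟨a', b', c', d', hv⟩ := memH v.2
    have := indep (l := l) (by simpa [mulMap, xA, hu, hv] using ht)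
    rw [show u = 0 from Subtype.ext (by simp [hu, el, this]),
      show v = 0 from Subtype.ext (by simp [hv, el, this])]
    simp
  · obtain ⟨u, hu, v, hv, rfl⟩ := dec l e
    exact ⟨1 ⊗ₜ ⟨u, hu⟩ + xA ⊗ₜ ⟨v, hv⟩, by simp [mulMap, xA]⟩

lemma fin : Module.Finite K E := by
  let f : (Fin 8 → K) →ₗ[K] E := Fintype.linearCombination K
    ![1, w 0, z, w 0 * z, x, x * w 0, x * z, x * (w 0 * z)]
  refine Module.Finite.of_surjective f fun e => ?_
  obtain ⟨u, hu, v, hv, rfl⟩ := dec 0 e
  obtain ⟨a, b, c, d, rfl⟩ := memH hu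
  obtain ⟨a', b', c', d', rfl⟩ := memH hv
  refine ⟨![a, b, c, d, a', b', c', d'], ?_⟩
  simp [f, Fintype.linearCombination_apply, Fin.sum_univ_succ, el, mul_add, add_assoc]

noncomputable def lam' (n : ℕ) : F := algebraMap (MvPolynomial ℕ (ZMod 2)) F (.X n)

noncomputable def lam (n : ℕ) : K := lam' n

lemma lam_ne' {m n : ℕ} (h : m ≠ n) (c s : F) : lam' m ≠ c * c + lam' n * (s * s) := by
  obtain ⟨p, q, hq, rfl⟩ := IsFractionRing.div_surjective (MvPolynomial ℕ (ZMod 2)) c
  obtain ⟨r, t, ht, rfl⟩ := IsFractionRing.div_surjective (MvPolynomial ℕ (ZMod 2)) s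
  have hq0 := nonZeroDivisors.ne_zero hq
  have ht0 := nonZeroDivisors.ne_zero ht
  intro e
  have hq1 := (map_ne_zero_iff _ (IsFractionRing.injective _ F)).2 hq0
  have ht1 := (map_ne_zero_iff _ (IsFractionRing.injective _ F)).2 ht0
  have e2 : MvPolynomial.X m * (q * t) ^ 2 = (p * t) ^ 2 + MvPolynomial.X n * (r * q) ^ 2 := by
    apply IsFractionRing.injective _ F
    simp only [lam'] at e
    simp only [map_mul, map_add, map_pow, e]
    field_simp
  have e3 := congrArg (MvPolynomial.pderiv m) e2
  simp [MvPolynomial.pderiv_X, h.symm, CharTwo.two_eq_zero, hq0, ht0] at e3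

lemma lam_ne {m n : ℕ} (h : m ≠ n) (c s : K) : lam m ≠ c * c + lam n * (s * s) := lam_ne' h c s

lemma noniso {m n : ℕ} (h : m ≠ n) : IsEmpty (H (lam m) ≃ₐ[K] H (lam n)) := ⟨fun φ => by
  let W : H (lam m) := ⟨w (lam m), Algebra.subset_adjoin (by simp)⟩
  let Z : H (lam m) := ⟨z, Algebra.subset_adjoin (by simp)⟩
  obtain ⟨a, b, c, d, hu⟩ := memH (φ W).2
  obtain ⟨a', b', c', d', he⟩ := memH (φ Z).2
  have h1 : (φ Z : E) * φ Z = φ Z := by
    rw [← Subalgebra.coe_mul, ← map_mul, show Z * Z = Z from Subtype.ext zz]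
  have h2 : (φ W : E) * φ W = lam m • (φ Z : E) := by
    rw [← Subalgebra.coe_mul, ← map_mul, show W * W = lam m • Z from Subtype.ext (ww _), map_smul]
    rfl
  have h3 : (φ Z : E) ≠ 0 := fun h0 => by
    have : z = 0 := congrArg Subtype.val (φ.map_eq_zero_iff.1 (Subtype.ext h0))
    simpa using el_inj (l := 0) (a := 0) (b := 0) (c := 1) (d := 0) (a' := 0) (b' := 0) (c' := 0)
      (d' := 0) (by simp [el, this])
  rw [he, el_mul] at h1
  rw [hu, he, el_mul, show lam m • el (lam n) a' b' c' d' = el (lam n) (lam m * a') (lam m * b')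
    (lam m * c') (lam m * d') by simp only [el]; module] at h2
  obtain ⟨p1, p2, p3, p4⟩ := el_inj h1
  obtain ⟨q1, -, q3, -⟩ := el_inj h2
  have t2 : (2 : K) = 0 := CharTwo.two_eq_zero
  have hb : b' = 0 := by linear_combination -p2 + a' * b' * t2
  have hd : d' = 0 := by linear_combination -p4 + (a' * d' + b' * c' + c' * d') * t2
  by_cases ha : a' = 0
  · have hc : c' ≠ 0 := fun hc => h3 (by simp [he, el, ha, hb, hc, hd])
    have : c' = 1 := mul_left_cancel₀ hc (by rw [ha, hb, hd] at p3; linear_combination p3)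
    exact lam_ne h c (b + d) (by rw [this] at q3; linear_combination -q3 + a * c * t2)
  · have : a' = 1 := mul_left_cancel₀ ha (by linear_combination p1)
    exact lam_ne h a 0 (by rw [this] at q1; linear_combination -q1)⟩

theorem result : ∃ (k E : Type) (_ : Field k) (_ : Ring E) (_ : HopfAlgebra k E),
    Module.Finite k E ∧ ∃ (A : Subalgebra k E) (H : ℕ → Subalgebra k E), IsHopfSub A ∧
      (∀ n, IsComplement A (H n)) ∧ ∀ m n, m ≠ n → NonIso (H m) (H n) := by
  refine ⟨K, E, inferInstance, inferInstance, inferInstance, fin, A, fun n => H (lam n),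
    hopfSub _ (by rintro _ rfl; simp [pr]), fun n => ⟨hopfSub _ ?_, mulBij (bij _)⟩, fun m n => noniso⟩
  rintro _ (rfl | rfl)
  · simp [w, pr, add_tmul, tmul_add, smul_tmul', add_add_add_comm]
  · exact ⟨by rw [← pr_z]; simp [z, pr], by simp [z, add_comm]⟩

end Pool.Agent.Results.MP_d8e1db_al.Infinite
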